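import Mathlib

set_option autoImplicit false

namespace Pool.Agent.Results.MP_ba4d4a_gt.Corner

open EuclideanGeometry

/-- Curvature (angle deficit) at the vertex `v` of the tetrahedron with vertices `v, x, y, z`:
`2π` minus the three face angles at `v`. -/
noncomputable def curv (v x y z : EuclideanSpace ℝ (Fin 3)) : ℝ :=
  2 * Real.pi - (∠ x v y + ∠ x v z + ∠ y v z)

lemma ang (p q r : EuclideanSpace ℝ (Fin 3)) :
    ∠ p q r = Real.arccos (((p 0 - q 0) * (r 0 - q 0) + (p 1 - q 1) * (r 1 - q 1)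
      + (p 2 - q 2) * (r 2 - q 2)) /
      (√((p 0 - q 0) ^ 2 + (p 1 - q 1) ^ 2 + (p 2 - q 2) ^ 2) *
        √((r 0 - q 0) ^ 2 + (r 1 - q 1) ^ 2 + (r 2 - q 2) ^ 2))) := by
  unfold EuclideanGeometry.angle InnerProductGeometry.angle
  simp only [vsub_eq_sub, EuclideanSpace.norm_eq, Fin.sum_univ_three, PiLp.inner_apply,
    PiLp.sub_apply, Real.norm_eq_abs, sq_abs, RCLike.inner_apply, conj_trivial]
  congr 2
  ring

lemma dst (p q : EuclideanSpace ℝ (Fin 3)) :
    dist p q = √((p 0 - q 0) ^ 2 + (p 1 - q 1) ^ 2 + (p 2 - q 2) ^ 2) := by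
  simp [EuclideanSpace.dist_eq, Fin.sum_univ_three, Real.dist_eq, sq_abs]

lemma acos_lt {x y : ℝ} (h0 : -1 ≤ x) (h : x < y) (h1 : y ≤ 1) :
    Real.arccos y < Real.arccos x :=
  Real.strictAntiOn_arccos ⟨h0, by linarith⟩ ⟨by linarith, h1⟩ h

lemma c2 (x y z : ℝ) : (![x, y, z] : Fin 3 → ℝ) 2 = z := rfl

theorem result : ∃ a b c d : EuclideanSpace ℝ (Fin 3), AffineIndependent ℝ ![a, b, c, d] ∧
    (dist a c < dist a b ∧ dist a d < dist a b ∧ dist b c < dist a b ∧ dist b d < dist a b ∧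
      dist c d < dist a b) ∧
    curv a b c d < curv c a b d ∧ curv b a c d < curv c a b d := by
  have l34 : (5.8 : ℝ) < √34 := Real.lt_sqrt_of_sq_lt (by norm_num)
  have u34 : √(34 : ℝ) < 5.9 := (Real.sqrt_lt' (by norm_num)).2 (by norm_num)
  have l18 : (4.2 : ℝ) < √18 := Real.lt_sqrt_of_sq_lt (by norm_num)
  have u18 : √(18 : ℝ) < 4.3 := (Real.sqrt_lt' (by norm_num)).2 (by norm_num)
  have h1 : Real.arccos (25 / 34) < Real.arccos (18 / (6 * √34)) := by
    apply acos_lt _ _ (by norm_num)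
    · have : (0 : ℝ) ≤ 18 / (6 * √34) := by positivity
      linarith
    · rw [div_lt_iff₀ (by positivity)]; linarith
  have h2 : Real.arccos (25 / 34) < Real.arccos (18 / (6 * √18)) := by
    apply acos_lt _ _ (by norm_num)
    · have : (0 : ℝ) ≤ 18 / (6 * √18) := by positivity
      linarith
    · rw [div_lt_iff₀ (by positivity)]; linarith
  have h3 : Real.arccos (16 / 34) < Real.arccos (9 / (√34 * √18)) := by
    apply acos_lt _ _ (by norm_num)
    · have : (0 : ℝ) ≤ 9 / (√34 * √18) := by positivity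
      linarith
    · rw [div_lt_iff₀ (by positivity)]; nlinarith
  refine ⟨!₂[-3, 0, 0], !₂[3, 0, 0], !₂[0, 5, 0], !₂[0, 0, 3], ?_, ?_, ?_, ?_⟩
  · rw [affineIndependent_iff_linearIndependent_vsub ℝ _ (0 : Fin 4)]
    rw [← linearIndependent_equiv (finSuccAboveEquiv (0 : Fin 4))]
    rw [Fintype.linearIndependent_iff]
    intro g hg
    have e0 := congrArg (fun v : EuclideanSpace ℝ (Fin 3) => v 0) hg
    have e1 := congrArg (fun v : EuclideanSpace ℝ (Fin 3) => v 1) hg
    have e2 := congrArg (fun v : EuclideanSpace ℝ (Fin 3) => v 2) hg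
    simp [Fin.sum_univ_three, finSuccAboveEquiv] at e0 e1 e2
    intro i
    fin_cases i <;> simp <;> first | assumption | (rw [e1, e2] at e0; linarith)
  · simp only [dst]
    norm_num [c2]
    refine ⟨?_, ?_, ?_, ?_, ?_⟩ <;> linarith
  · simp only [curv, ang]
    norm_num [c2]
    rw [show (8 / 17 : ℝ) = 16 / 34 by norm_num]
    linarith
  · simp only [curv, ang]
    norm_num [c2]
    rw [show (8 / 17 : ℝ) = 16 / 34 by norm_num]
    linarith

end Pool.Agent.Results.MP_ba4d4a_gt.Corner
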